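import Pool.Agent.Lib.MP_c058bc_gt.Contradiction

/-!
# MP_c058bc_gt: `SL₃(ℤ)` has no bi-Lipschitz (nor even quasi-isometric) embedding into an `L₁` space

Own statement beside the proof of the frozen statement `S13864`.
-/

set_option autoImplicit false

namespace Pool.Agent.Results.MP_c058bc_gt.NoQIEmbedL1

open Pool.Agent.Lib.MP_c058bc_gt
open MeasureTheory

/-- the group `SL₃(ℤ)` -/
abbrev SL3Z : Type := Matrix.SpecialLinearGroup (Fin 3) ℤ

/-- `wordLength S γ` is the least number of elements of `S` whose product is `γ` -/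
noncomputable def wordLength (S : Set SL3Z) (γ : SL3Z) : ℕ :=
  sInf {n : ℕ | ∃ l : List SL3Z, l.length = n ∧ (∀ x ∈ l, x ∈ S) ∧ l.prod = γ}

/-- the word metric `d_S(g, h)`: the least number of elements of `S` whose product is `g⁻¹h` -/
noncomputable def wordDist (S : Set SL3Z) (g h : SL3Z) : ℕ := wordLength S (g⁻¹ * h)

/-- the lengths of words representing an element -/
private def WS (S : Set SL3Z) (γ : SL3Z) : Set ℕ :=
  {n : ℕ | ∃ l : List SL3Z, l.length = n ∧ (∀ x ∈ l, x ∈ S) ∧ l.prod = γ}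

private lemma WS_nonempty {S : Set SL3Z} (hsymm : ∀ x ∈ S, x⁻¹ ∈ S)
    (hS : Subgroup.closure S = ⊤) (γ : SL3Z) : (WS S γ).Nonempty := by
  have hmem : γ ∈ Subgroup.closure S := by
    rw [hS]
    exact Subgroup.mem_top γ
  have hmem' : γ ∈ Submonoid.closure (S ∪ S⁻¹) := by
    rw [← Subgroup.closure_toSubmonoid]
    exact hmem
  obtain ⟨l, hl, hprod⟩ := Submonoid.exists_list_of_mem_closure hmem'
  refine ⟨l.length, l, rfl, fun x hx => ?_, hprod⟩
  rcases hl x hx with h | h
  · exact h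
  · have := hsymm _ (Set.mem_inv.mp h)
    rwa [inv_inv] at this

private noncomputable def wl (S : Set SL3Z) (γ : SL3Z) : ℝ := ((sInf (WS S γ) : ℕ) : ℝ)

private lemma wl_isLen {S : Set SL3Z} (hsymm : ∀ x ∈ S, x⁻¹ ∈ S)
    (hS : Subgroup.closure S = ⊤) : IsLen (wl S) where
  nonneg γ := Nat.cast_nonneg _
  mul_le g h := by
    obtain ⟨l1, h1, h2, h3⟩ := Nat.sInf_mem (WS_nonempty hsymm hS g)
    obtain ⟨l2, k1, k2, k3⟩ := Nat.sInf_mem (WS_nonempty hsymm hS h)
    have hmem : l1.length + l2.length ∈ WS S (g * h) := by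
      refine ⟨l1 ++ l2, List.length_append, ?_, ?_⟩
      · intro x hx
        rcases List.mem_append.mp hx with hx | hx
        · exact h2 x hx
        · exact k2 x hx
      · rw [List.prod_append, h3, k3]
    have hle := Nat.sInf_le hmem
    unfold wl
    rw [← h1, ← k1]
    exact_mod_cast hle
  inv_eq g := by
    have key : ∀ g, sInf (WS S g⁻¹) ≤ sInf (WS S g) := by
      intro g
      obtain ⟨l1, h1, h2, h3⟩ := Nat.sInf_mem (WS_nonempty hsymm hS g)
      have hmem : l1.length ∈ WS S g⁻¹ := by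
        refine ⟨(l1.map (fun x => x⁻¹)).reverse, by simp, ?_, ?_⟩
        · intro x hx
          rw [List.mem_reverse, List.mem_map] at hx
          obtain ⟨y, hy, rfl⟩ := hx
          exact hsymm _ (h2 y hy)
        · rw [← h3, List.prod_inv_reverse]
      rw [← h1]
      exact Nat.sInf_le hmem
    have k1 := key g
    have k2 := key g⁻¹
    rw [inv_inv] at k2
    unfold wl
    rw [le_antisymm k1 k2]

private lemma len_le_wl {S : Set SL3Z} (hfin : S.Finite) (hsymm : ∀ x ∈ S, x⁻¹ ∈ S)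
    (hS : Subgroup.closure S = ⊤) :
    ∃ L : ℝ, 0 < L ∧ ∀ γ, len (toR γ) ≤ L * (1 + wl S γ) := by
  classical
  set M : ℝ := ∑ x ∈ hfin.toFinset, len (toR x) with hM
  have hM0 : 0 ≤ M := Finset.sum_nonneg fun x _ => len_nonneg _
  have hlist : ∀ l : List SL3Z, (∀ x ∈ l, x ∈ S) →
      len (toR l.prod) ≤ len (toR 1) + M * l.length := by
    intro l
    induction l with
    | nil => intro _; simp
    | cons a l ih =>
      intro hl
      have h1 := ih (fun x hx => hl x (List.mem_cons_of_mem _ hx))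
      have h2 : len (toR a) ≤ M :=
        Finset.single_le_sum (f := fun x => len (toR x)) (fun x _ => len_nonneg _)
          (hfin.mem_toFinset.mpr (hl a List.mem_cons_self))
      rw [List.prod_cons, map_mul, List.length_cons]
      have h4 := len_mul_le (toR a) (toR l.prod)
      push_cast
      linarith
  refine ⟨len (toR 1) + M + 1, by linarith [len_nonneg (toR 1)], fun γ => ?_⟩
  obtain ⟨l, h1, h2, h3⟩ := Nat.sInf_mem (WS_nonempty hsymm hS γ)
  have h4 := hlist l h2
  rw [h3] at h4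
  have h5 : (l.length : ℝ) = wl S γ := by
    unfold wl
    rw [← h1]
  rw [h5] at h4
  have h6 : 0 ≤ wl S γ := Nat.cast_nonneg _
  have h7 := len_nonneg (toR 1)
  nlinarith

/-- **`SL₃(ℤ)` does not embed into `L₁`.** Let `S` be a finite symmetric generating set of `SL₃(ℤ)`,
`d_S` its word metric, `F` a map from `SL₃(ℤ)` to the space `L₁(Ω, μ)` of an arbitrary measure space
(for instance `[0,1]` with Lebesgue measure). For all constants `c > 0`, `C`, `D` the inequality
`c d_S(g,h) - D ≤ ‖F g - F h‖₁ ≤ C d_S(g,h) + D` fails for some pair `g, h`. -/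
theorem result (S : Set SL3Z) (hfin : S.Finite) (hsymm : ∀ x ∈ S, x⁻¹ ∈ S)
    (hgen : Subgroup.closure S = ⊤) (Ω : Type) [MeasurableSpace Ω] (μ : Measure Ω)
    (F : SL3Z → Lp ℝ 1 μ) (c C D : ℝ) (hc : 0 < c) :
    ∃ g h : SL3Z, ¬ (c * (wordDist S g h : ℝ) - D ≤ ‖F g - F h‖ ∧
      ‖F g - F h‖ ≤ C * (wordDist S g h : ℝ) + D) := by
  by_contra hcon
  push Not at hcon
  have hf' : ∀ g h, c * wl S (g⁻¹ * h) - D ≤ ‖F g - F h‖ ∧
      ‖F g - F h‖ ≤ C * wl S (g⁻¹ * h) + D := fun g h => by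
    by_contra h'
    exact h' (hcon g h)
  obtain ⟨K, hK0, hK⟩ := lmr (wl_isLen hsymm hgen)
  obtain ⟨L, hL0, hL⟩ := len_le_wl hfin hsymm hgen
  have hgood : Good (fun g h => ‖F g - F h‖) (c / L) (|C| * K + c + |D|) := by
    refine ⟨Cone.lp F, by positivity, ?_, ?_⟩
    · intro γ δ
      have h1 := (hf' γ δ).2
      have h2 := hK (γ⁻¹ * δ)
      have h3 : 0 ≤ wl S (γ⁻¹ * δ) := Nat.cast_nonneg _
      have h4 := len_nonneg (toR (γ⁻¹ * δ))
      have h5 := le_abs_self D
      have h6 := abs_nonneg D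
      calc ‖F γ - F δ‖ ≤ C * wl S (γ⁻¹ * δ) + D := h1
        _ ≤ |C| * wl S (γ⁻¹ * δ) + |D| :=
          add_le_add (mul_le_mul_of_nonneg_right (le_abs_self C) h3) h5
        _ ≤ |C| * (K * (1 + len (toR (γ⁻¹ * δ)))) + |D| :=
          add_le_add (mul_le_mul_of_nonneg_left h2 (abs_nonneg C)) le_rfl
        _ ≤ (|C| * K + c + |D|) * (1 + len (toR (γ⁻¹ * δ))) := by nlinarith
    · intro γ δ
      have h1 := (hf' γ δ).1
      have h2 := hL (γ⁻¹ * δ)
      have h5 : c / L * len (toR (γ⁻¹ * δ)) ≤ c * (1 + wl S (γ⁻¹ * δ)) := by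
        have := mul_le_mul_of_nonneg_left h2 (show 0 ≤ c / L by positivity)
        calc c / L * len (toR (γ⁻¹ * δ)) ≤ c / L * (L * (1 + wl S (γ⁻¹ * δ))) := this
          _ = c * (1 + wl S (γ⁻¹ * δ)) := by field_simp
      have h6 : 0 ≤ |C| * K := by positivity
      have h7 := le_abs_self D
      show c / L * len (toR (γ⁻¹ * δ)) - (|C| * K + c + |D|) ≤ ‖F γ - F δ‖
      linarith
  exact no_good hgood

end Pool.Agent.Results.MP_c058bc_gt.NoQIEmbedL1
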